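import Pool.Agent.helper99.WN.SpecC

set_option autoImplicit false

open Classical

namespace Pool.Agent.WN

open Pool.Agent.NE

theorem DT_step {G : Type} [Group G] {k n : ℕ} (ψ : G →* Multiplicative (Fin k → ZMod n))
    {t t' : Fin k → G} (hs : Step t t') :
    (Matrix.of fun i => Multiplicative.toAdd (ψ (t i))).det =
      (Matrix.of fun i => Multiplicative.toAdd (ψ (t' i))).det ∨
    (Matrix.of fun i => Multiplicative.toAdd (ψ (t i))).det =
      - (Matrix.of fun i => Multiplicative.toAdd (ψ (t' i))).det := by
  set M : Matrix (Fin k) (Fin k) (ZMod n) := Matrix.of fun i => Multiplicative.toAdd (ψ (t i)) with hM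
  cases hs with
  | perm σ =>
    have h1 : (Matrix.of fun i => Multiplicative.toAdd (ψ ((t ∘ σ) i))) = M.submatrix σ id := by
      ext i j
      simp [hM]
    rw [h1, Matrix.det_permute]
    rcases Int.units_eq_one_or (Equiv.Perm.sign σ) with h | h
    · left; rw [h]; simp
    · right; rw [h]; simp
  | inv i =>
    have h1 : (Matrix.of fun l => Multiplicative.toAdd (ψ (Function.update t i (t i)⁻¹ l))) =
        M.updateRow i ((-1 : ZMod n) • M i) := by
      ext a b
      by_cases h : a = i
      · subst h
        simp [hM]
      · rw [Matrix.updateRow_ne h]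
        simp [hM, Function.update_of_ne h]
    right
    rw [h1, Matrix.det_updateRow_smul, Matrix.updateRow_eq_self]
    ring
  | mul i j hij =>
    have h1 : (Matrix.of fun l => Multiplicative.toAdd (ψ (Function.update t i (t i * t j) l))) =
        M.updateRow i (M i + M j) := by
      ext a b
      by_cases h : a = i
      · subst h
        simp [hM]
      · rw [Matrix.updateRow_ne h]
        simp [hM, Function.update_of_ne h]
    left
    rw [h1, Matrix.det_updateRow_add_self M hij.symm]

theorem DT : DT_stmt := by
  intro G _ k n ψ t t' h
  induction h with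
  | refl => exact Or.inl rfl
  | tail _ hs ih =>
    rcases ih with h1 | h1 <;> rcases DT_step ψ hs with h2 | h2
    · left; rw [h1, h2]
    · right; rw [h1, h2]
    · right; rw [h1, h2]
    · left; rw [h1, h2, neg_neg]

end Pool.Agent.WN
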