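import Pool.Agent.helper99.WN.SpecC
import Pool.Agent.helper99.WN.Basic

set_option autoImplicit false

open Classical

namespace Pool.Agent.WN

open Pool.Agent.NE

theorem NB_rev {V : Type} {k : ℕ} {R : V → Lt k → V → Prop} (hS : Sym R) (l : List (Lt k))
    (v v' : V) (h : Rd R v l v') : Rd R v' (FreeGroup.invRev l) v := by
  induction l generalizing v with
  | nil =>
    have h1 : v = v' := h
    exact h1.symm
  | cons a l ih =>
    obtain ⟨v1, h1, h2⟩ := h
    have h3 := ih v1 h2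
    have h4 : FreeGroup.invRev (a :: l) = FreeGroup.invRev l ++ [iv a] := by
      simp [FreeGroup.invRev, iv]
    rw [h4]
    exact rd_append h3 ⟨v, hS _ _ _ h1, rfl⟩

theorem NB_sym {k : ℕ} (A : Finset (Fr k)) (a b : Fin k → Fr k) (x : Fin k → Lt k) :
    Sym (RT A a b x) := by
  rintro v y v' (⟨h1, h2, h3⟩ | ⟨j, ⟨h1, h2, h3⟩ | ⟨h1, h2, h3⟩⟩)
  · left
    refine ⟨h2, h1, ?_⟩
    rw [h3, lt_iv, mul_inv_cancel_right]
  · right
    exact ⟨j, Or.inr ⟨h3, by rw [h2], h1⟩⟩
  · right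
    exact ⟨j, Or.inl ⟨h3, by rw [h2, iv_iv], h1⟩⟩

theorem NB_tree {k : ℕ} (A : Finset (Fr k)) (t a b : Fin k → Fr k) (x : Fin k → Lt k)
    (hTF : TF A t a b x) : ∀ (n : ℕ) (g : Fr k), g.toWord.length = n → g ∈ A →
      Rd (RT A a b x) 1 g.toWord g := by
  intro n
  induction n with
  | zero =>
    intro g hg hA
    have h1 : g.toWord = [] := List.length_eq_zero_iff.mp hg
    have h2 : g = 1 := FreeGroup.toWord_eq_nil_iff.mp h1
    subst h2
    rw [h1]
    exact rfl
  | succ n ih =>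
    intro g hg hA
    have hne : g.toWord ≠ [] := by
      intro h; rw [h] at hg; simp at hg
    have hsplit : g.toWord.dropLast ++ [g.toWord.getLast hne] = g.toWord :=
      List.dropLast_append_getLast hne
    have hred : FreeGroup.IsReduced g.toWord.dropLast :=
      List.IsChain.left_of_append (l₂ := [g.toWord.getLast hne]) (by rw [hsplit]; exact FreeGroup.isReduced_toWord)
    have hw : (FreeGroup.mk g.toWord.dropLast).toWord = g.toWord.dropLast := by
      rw [FreeGroup.toWord_mk, hred.reduce_eq]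
    have hA' := hTF.pc g hA
    have h1 := ih (FreeGroup.mk g.toWord.dropLast) (by rw [hw, List.length_dropLast, hg]; rfl) hA'
    rw [hw] at h1
    rw [← hsplit]
    refine rd_append (v' := FreeGroup.mk g.toWord.dropLast) h1 ⟨g, Or.inl ⟨hA', hA, ?_⟩, rfl⟩
    unfold lt
    rw [FreeGroup.mul_mk, hsplit, FreeGroup.mk_toWord]

theorem NB (hRR : RR_stmt) : NB_stmt := by
  intro k A t a b x hTF hgen hdet g hgA
  have hsym := NB_sym A a b x
  have htree : ∀ g ∈ A, Rd (RT A a b x) 1 g.toWord g :=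
    fun g hg => NB_tree A t a b x hTF _ g rfl hg
  have hclaim : ∀ h : Fr k, h ∈ Subgroup.closure (Set.range t) →
      ∃ l : List (Lt k), FreeGroup.mk l = h ∧ Rd (RT A a b x) 1 l 1 := by
    intro h hh
    induction hh using Subgroup.closure_induction with
    | mem y hy =>
      obtain ⟨j, rfl⟩ := hy
      refine ⟨(a j).toWord ++ ([x j] ++ FreeGroup.invRev (b j).toWord), ?_, ?_⟩
      · rw [hTF.eq j, ← FreeGroup.mul_mk, ← FreeGroup.mul_mk, FreeGroup.mk_toWord,
          ← FreeGroup.inv_mk, FreeGroup.mk_toWord, mul_assoc]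
        rfl
      · refine rd_append (htree _ (hTF.ha j)) (rd_append (v' := b j) ⟨b j, ?_, rfl⟩ ?_)
        · exact Or.inr ⟨j, Or.inl ⟨rfl, rfl, rfl⟩⟩
        · exact NB_rev hsym _ _ _ (htree _ (hTF.hb j))
    | one => exact ⟨[], rfl, rfl⟩
    | mul y z _ _ ihy ihz =>
      obtain ⟨l1, h1, h2⟩ := ihy
      obtain ⟨l2, h3, h4⟩ := ihz
      exact ⟨l1 ++ l2, by rw [← FreeGroup.mul_mk, h1, h3], rd_append h2 h4⟩
    | inv y _ ih =>
      obtain ⟨l, h1, h2⟩ := ih
      exact ⟨FreeGroup.invRev l, by rw [← FreeGroup.inv_mk, h1], NB_rev hsym _ _ _ h2⟩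
  obtain ⟨l, hl, hl1⟩ := hclaim g (by rw [hgen]; trivial)
  have h1 := hRR.1 (Fr k) k (RT A a b x) hdet hsym l 1 1 hl1
  rw [hl] at h1
  exact rd_det hdet (htree g hgA) h1

end Pool.Agent.WN
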