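import Pool.Agent.helper99.WN.SpecC
import Pool.Agent.helper99.WN.Basic

set_option autoImplicit false

open Classical

namespace Pool.Agent.WN

open Pool.Agent.NE

theorem NC_ltiv {k : ℕ} (x : Lt k) : lt (iv x) = (lt x)⁻¹ := lt_iv x

/-- inverting an entry keeps the form of the others -/
theorem NC_inv {k : ℕ} (A : Finset (Fr k)) (g : Fr k)
    (h : ∃ a' ∈ A, ∃ b' ∈ A, ∃ x' : Lt k, g = a' * lt x' * b'⁻¹) :
    ∃ a' ∈ A, ∃ b' ∈ A, ∃ x' : Lt k, g⁻¹ = a' * lt x' * b'⁻¹ := by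
  obtain ⟨a', ha', b', hb', x', rfl⟩ := h
  refine ⟨b', hb', a', ha', iv x', ?_⟩
  rw [NC_ltiv]
  group

/-- final step: from an entry `c d⁻¹` to the conclusion. -/
theorem NC_fin {k : ℕ} (A : Finset (Fr k)) (t t' : Fin k → Fr k) (j : Fin k) (c d : Fr k)
    (he : NielsenEquiv t t') (hc : c ∈ A) (hd : d ∈ A) (hcd : c ≠ d) (h : t' j = c * d⁻¹)
    (hf : ∀ i, i ≠ j → ∃ a' ∈ A, ∃ b' ∈ A, ∃ x' : Lt k, t' i = a' * lt x' * b'⁻¹) :
    ∃ (t' : Fin k → Fr k) (j : Fin k) (c d : Fr k), NielsenEquiv t t' ∧ c ∈ A ∧ d ∈ A ∧ c ≠ d ∧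
      t' j = c * d⁻¹ ∧
      (∀ i, i ≠ j → ∃ a' ∈ A, ∃ b' ∈ A, ∃ x' : Lt k, t' i = a' * lt x' * b'⁻¹) ∧
      ¬ d.toWord <+: c.toWord := by
  by_cases hp : d.toWord <+: c.toWord
  · refine ⟨Function.update t' j (t' j)⁻¹, j, d, c, he.trans (NielsenEquiv.of_step (Step.inv t' j)),
      hd, hc, hcd.symm, ?_, ?_, ?_⟩
    · rw [Function.update_self, h]; group
    · intro i hi
      rw [Function.update_of_ne hi]
      exact hf i hi
    · intro hp2
      apply hcd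
      apply FreeGroup.toWord_injective
      exact List.IsPrefix.eq_of_length hp2 (le_antisymm hp2.length_le hp.length_le)
  · exact ⟨t', j, c, d, he, hc, hd, hcd, h, hf, hp⟩

theorem NC : NC_stmt := by
  intro k A t a b x hTF hnd
  unfold Det at hnd
  push Not at hnd
  obtain ⟨c0, y, c1, c2, h1, h2, hne⟩ := hnd
  have hform : ∀ i, ∃ a' ∈ A, ∃ b' ∈ A, ∃ x' : Lt k, t i = a' * lt x' * b'⁻¹ :=
    fun i => ⟨a i, hTF.ha i, b i, hTF.hb i, x i, hTF.eq i⟩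
  -- an additional edge `j` from `c0` to `c2` with letter `y`:
  -- `t j = c0 * lt y * c2⁻¹` or its inverse
  have hadd : ∀ c : Fr k, (∃ j, (c0 = a j ∧ y = x j ∧ c = b j) ∨ (c0 = b j ∧ y = iv (x j) ∧ c = a j)) →
      ∃ j, c0 ∈ A ∧ c ∈ A ∧ ((t j = c0 * lt y * c⁻¹ ∧ c0 = a j ∧ y = x j ∧ c = b j) ∨
        ((t j)⁻¹ = c0 * lt y * c⁻¹ ∧ c0 = b j ∧ y = iv (x j) ∧ c = a j)) := by
    rintro c ⟨j, ⟨h3, h4, h5⟩ | ⟨h3, h4, h5⟩⟩
    · refine ⟨j, h3 ▸ hTF.ha j, h5 ▸ hTF.hb j, Or.inl ⟨?_, h3, h4, h5⟩⟩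
      rw [hTF.eq j, h3, h4, h5]
    · refine ⟨j, h3 ▸ hTF.hb j, h5 ▸ hTF.ha j, Or.inr ⟨?_, h3, h4, h5⟩⟩
      rw [hTF.eq j, h3, h4, h5, NC_ltiv]
      group
  -- tree edge and additional edge
  have htree : ∀ c c' : Fr k, c ≠ c' → (c0 ∈ A ∧ c ∈ A ∧ c = c0 * lt y) →
      (∃ j, (c0 = a j ∧ y = x j ∧ c' = b j) ∨ (c0 = b j ∧ y = iv (x j) ∧ c' = a j)) →
      ∃ (t' : Fin k → Fr k) (j : Fin k) (c d : Fr k), NielsenEquiv t t' ∧ c ∈ A ∧ d ∈ A ∧ c ≠ d ∧
      t' j = c * d⁻¹ ∧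
      (∀ i, i ≠ j → ∃ a' ∈ A, ∃ b' ∈ A, ∃ x' : Lt k, t' i = a' * lt x' * b'⁻¹) ∧
      ¬ d.toWord <+: c.toWord := by
    rintro c c' hcc ⟨-, hc, hc'⟩ hj
    obtain ⟨j, -, hcA, ⟨h3, -⟩ | ⟨h3, -⟩⟩ := hadd c' hj
    · refine NC_fin A t t j c c' (NielsenEquiv.refl t) hc hcA hcc ?_ (fun i _ => hform i)
      rw [h3, hc']
    · refine NC_fin A t (Function.update t j (t j)⁻¹) j c c' (NielsenEquiv.of_step (Step.inv t j))
        hc hcA hcc ?_ ?_
      · rw [Function.update_self, h3, hc']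
      · intro i hi
        rw [Function.update_of_ne hi]
        exact hform i
  rcases h1 with h1 | h1
  · rcases h2 with h2 | h2
    · exact absurd (h1.2.2.trans h2.2.2.symm) hne
    · exact htree c1 c2 hne h1 h2
  · rcases h2 with h2 | h2
    · exact htree c2 c1 hne.symm h2 h1
    · -- two additional edges
      obtain ⟨j, -, hc1, hj⟩ := hadd c1 h1
      obtain ⟨i, -, hc2, hi⟩ := hadd c2 h2
      have hij : i ≠ j := by
        rintro rfl
        rcases hj with ⟨-, -, h4, h5⟩ | ⟨-, -, h4, h5⟩ <;> rcases hi with ⟨-, -, h6, h7⟩ | ⟨-, -, h6, h7⟩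
        · exact hne (h5.trans h7.symm)
        · exact iv_ne (x i) (h6.symm.trans h4)
        · exact iv_ne (x i) (h4.symm.trans h6)
        · exact hne (h5.trans h7.symm)
      -- after inversion: `(t j)⁻¹` or `t j` is `(c0 lt y c1⁻¹)⁻¹`
      have hinvj : ∃ t1 : Fin k → Fr k, NielsenEquiv t t1 ∧ t1 j = (c0 * lt y * c1⁻¹)⁻¹ ∧
          ∀ l, l ≠ j → t1 l = t l := by
        rcases hj with ⟨h3, -⟩ | ⟨h3, -⟩
        · refine ⟨Function.update t j (t j)⁻¹, NielsenEquiv.of_step (Step.inv t j), ?_, ?_⟩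
          · rw [Function.update_self, h3]
          · intro l hl; rw [Function.update_of_ne hl]
        · refine ⟨t, NielsenEquiv.refl t, ?_, fun l _ => rfl⟩
          rw [← h3, inv_inv]
      obtain ⟨t1, he1, ht1j, ht1⟩ := hinvj
      have hinvi : ∃ t2 : Fin k → Fr k, NielsenEquiv t t2 ∧ t2 j = (c0 * lt y * c1⁻¹)⁻¹ ∧
          t2 i = c0 * lt y * c2⁻¹ ∧ ∀ l, l ≠ j → l ≠ i → t2 l = t l := by
        rcases hi with ⟨h3, -⟩ | ⟨h3, -⟩
        · refine ⟨t1, he1, ht1j, ?_, fun l hl _ => ht1 l hl⟩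
          rw [ht1 i hij, h3]
        · refine ⟨Function.update t1 i (t1 i)⁻¹, he1.trans (NielsenEquiv.of_step (Step.inv t1 i)),
            ?_, ?_, ?_⟩
          · rw [Function.update_of_ne hij.symm, ht1j]
          · rw [Function.update_self, ht1 i hij, h3]
          · intro l hl hl'
            rw [Function.update_of_ne hl', ht1 l hl]
      obtain ⟨t2, he2, ht2j, ht2i, ht2⟩ := hinvi
      refine NC_fin A t (Function.update t2 j (t2 j * t2 i)) j c1 c2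
        (he2.trans (NielsenEquiv.of_step (Step.mul t2 j i hij))) hc1 hc2 hne ?_ ?_
      · rw [Function.update_self, ht2j, ht2i]
        group
      · intro l hl
        rw [Function.update_of_ne hl]
        by_cases hli : l = i
        · subst hli
          rcases hi with ⟨h3, -⟩ | ⟨h3, -⟩
          · rw [ht2i, ← h3]; exact hform l
          · rw [ht2i, ← h3]; exact NC_inv A _ (hform l)
        · rw [ht2 l hl hli]
          exact hform l

end Pool.Agent.WN
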